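import Pool.Agent.W_448s8f_h15.StA
import Pool.Agent.W_448fc_h67.FcJ

/-!
Level 14, window 7 (MP_448cb3_co, S7, `j = 14`): bounded sums of a component with an anchor: order one
always, order two at the first energies.
-/

namespace Pool.Agent.GaussPoset.W7

set_option linter.unusedSectionVars false

open Polynomial Finset Fi

universe u

section anchor

variable {Q : Type u} [Fintype Q] [PartialOrder Q] [DecidableEq Q]

/-- order one, every energy -/
theorem anchor_one {i k : ℕ} {β : Q → ℕ} {v : Q} (hβ : ∀ x, β x ≤ k) (hv : β v = k)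
    (hl : i + k ≤ lev v) (n : ℕ) : (1 + X : ℤ[X]) ∣ ZB i ∅ 0 β n := by
  classical
  rw [StA_ZB_upL hβ (fun L => v ∈ L) (fun e F h => StA_anchor hv h)]
  refine Finset.dvd_sum fun L hL => Finset.dvd_sum fun ab hab => ?_
  rw [mem_upsF] at hL
  refine dvd_mul_of_dvd_left ?_ _
  rcases Nat.lt_or_ge ab.1 (cw {x // x ∈ L} i k) with h2 | h2
  · rw [ZB_const_zero h2]
    exact dvd_zero _
  · obtain ⟨c, hc⟩ := Nat.exists_eq_add_of_le' h2
    rw [hc, ZB_const]
    have h3 : (1 + X : ℤ[X]) ^ 1 ∣ Z {x // x ∈ L} (i + k) c := by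
      refine dvd_Z_of_dvd_W ?_ c
      rw [pow_one]
      exact dvd_W_one ⟨⟨v, hL.2⟩, by
        rw [lev_subtype (p := fun x => x ∈ L) hL.1]
        exact hl⟩
    rwa [pow_one] at h3

end anchor

section bottom

variable {Q : Type u} [Fintype Q] [PartialOrder Q] [DecidableEq Q]

/-- an element on every level between -/
lemma exists_btw (hgr : GradedBelow Q) {v x : Q} (hvx : v ≤ x) {l : ℕ} (h1 : lev x ≤ l)
    (h2 : l ≤ lev v) : ∃ w, v ≤ w ∧ w ≤ x ∧ lev w = l := by
  obtain ⟨n, rfl⟩ : ∃ n, l = lev x + n := ⟨l - lev x, by omega⟩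
  induction n with
  | zero => exact ⟨x, hvx, le_rfl, rfl⟩
  | succ n ih =>
    obtain ⟨w, hw1, hw2, hw3⟩ := ih (by omega) (by omega)
    have hne : v ≠ w := by
      rintro rfl
      omega
    obtain ⟨u, hu1, hu2, hu3⟩ := hgr v w (lt_of_le_of_ne hw1 hne)
    exact ⟨u, hu1, hu2.le.trans hw2, by omega⟩

open Classical in
/-- a poset with a bottom element, one element on the levels `j - 1` and `j + 1`, two elements on the
level `j`: order two at the energies zero and one -/
theorem bottom_dia (hgr : GradedBelow Q) {v : Q} (hb : ∀ x, v ≤ x) {j : ℕ} (hj1 : 1 ≤ j)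
    (hj : j + 1 ≤ lev v) (h2 : (lv Q j).card = 2) (hm : (lv Q (j - 1)).card = 1)
    (hp : (lv Q (j + 1)).card = 1) : ∀ n < 2, (1 + X : ℤ[X]) ^ 2 ∣ Z Q j n := by
  intro n hn
  obtain rfl | rfl : n = 0 ∨ n = 1 := by omega
  · rw [Z_zero, h2]
    exact dvd_mul_left _ _
  · -- the elements of the levels `j - 1` and `j + 1`
    obtain ⟨a, ha⟩ := card_eq_one.1 hm
    obtain ⟨b, hb1⟩ := card_eq_one.1 hp
    have la : lev a = j - 1 := mem_lv.1 (by rw [ha]; exact mem_singleton_self a)
    have lb : lev b = j + 1 := mem_lv.1 (by rw [hb1]; exact mem_singleton_self b)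
    have ua : ∀ x, lev x = j - 1 → x = a := fun x hx => by
      have := mem_lv.2 hx
      rw [ha, mem_singleton] at this
      exact this
    have ub : ∀ x, lev x = j + 1 → x = b := fun x hx => by
      have := mem_lv.2 hx
      rw [hb1, mem_singleton] at this
      exact this
    have dn2 : dn j a = 2 := by
      unfold dn
      rw [← h2]
      congr 1
      refine filter_true_of_mem fun x hx => ?_
      have lx := mem_lv.1 hx
      obtain ⟨y, hy1, hy2⟩ := exists_above' (x := x) (j := j - 1) (by omega)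
      rw [ua y hy2] at hy1
      exact lt_of_le_of_ne hy1 (by rintro rfl; omega)
    have up2 : up j b = 2 := by
      unfold up
      rw [← h2]
      congr 1
      refine filter_true_of_mem fun x hx => ?_
      have lx := mem_lv.1 hx
      obtain ⟨y, hy1, hy2, hy3⟩ := exists_btw hgr (hb x) (l := j + 1) (by omega) hj
      rw [ub y hy3] at hy2
      exact lt_of_le_of_ne hy2 (by rintro rfl; omega)
    have key : ∀ x : Q, (1 + X : ℤ[X]) ^ 2 ∣ X * (if Adm j (Pi.single x 1) then (X : ℤ[X]) ^
        (nf j (Pi.single x 1)) * (1 + X) ^ (Pk j (Pi.single x 1)).card else 0) -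
        ((if x = a then X ^ (below Q j) * (1 + X) else 0) +
        (if x = b then X ^ (below Q j) * (X ^ 3 * (1 + X)) else 0)) := by
      intro x
      have hab : a ≠ b := by
        rintro rfl
        omega
      rcases lt_trichotomy (lev x) j with h1 | h1 | h1
      · rcases Nat.lt_or_ge (lev x + 1) j with h3 | h3
        · -- far above
          have hn : ¬ Adm j (Pi.single x 1) := by
            intro hA
            obtain ⟨z, -, hz, hz2⟩ := exists_btw hgr (hb x) (l := lev x + 1) (by omega) (by omega)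
            have hne : z ≠ x := by rintro rfl; omega
            refine hA z ⟨Or.inl ?_, x, lt_of_le_of_ne hz hne, ?_⟩
            · rw [rho_single, if_neg hne]; omega
            · rw [rho_single, rho_single, if_neg hne, if_pos rfl]; omega
          rw [if_neg hn, if_neg (by rintro rfl; omega), if_neg (by rintro rfl; omega)]
          simp
        · have hxa := ua x (by omega)
          subst hxa
          rw [term_case2 j x (by omega), if_pos rfl, if_neg hab, h2, dn2]
          simp
      · have t1 := term_case1 j x h1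
        rw [t1, if_neg (by rintro rfl; omega), if_neg (by rintro rfl; omega), h2, add_zero, sub_zero]
        exact dvd_mul_of_dvd_right (dvd_mul_left _ _) _
      · rcases Nat.lt_or_ge (j + 1) (lev x) with h3 | h3
        · rw [if_neg (not_adm_case5 j x h3), if_neg (by rintro rfl; omega),
            if_neg (by rintro rfl; omega)]
          simp
        · have hxb := ub x (by omega)
          subst hxb
          rw [term_case3 j x (by omega), if_neg hab.symm, if_pos rfl, h2, up2]
          refine ⟨0, ?_⟩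
          ring
    have h3 : (1 + X : ℤ[X]) ^ 2 ∣ X * Z Q j 1 - (X ^ (below Q j) * (1 + X) +
        X ^ (below Q j) * (X ^ 3 * (1 + X))) := by
      have h4 := Finset.dvd_sum (s := (univ : Finset Q)) fun x _ => key x
      rw [Finset.sum_sub_distrib, Finset.sum_add_distrib, ← Finset.mul_sum,
        Finset.sum_ite_eq' univ a, Finset.sum_ite_eq' univ b, if_pos (mem_univ _),
        if_pos (mem_univ _)] at h4
      unfold Z
      rw [sum_piAntidiag_one]
      exact h4
    have h4 : (1 + X : ℤ[X]) ^ 2 ∣ X ^ (below Q j) * (1 + X) +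
        X ^ (below Q j) * (X ^ 3 * (1 + X)) := by
      refine ⟨X ^ (below Q j) * (X ^ 2 - X + 1), ?_⟩
      ring
    have h5 : (1 + X : ℤ[X]) ^ 2 ∣ X * Z Q j 1 := by
      have := dvd_add h3 h4
      rwa [sub_add_cancel] at this
    have hcop : IsCoprime ((1 + X : ℤ[X]) ^ 2) X := by
      refine IsCoprime.pow_left ?_
      exact ⟨1, -1, by ring⟩
    exact hcop.dvd_of_dvd_mul_left h5

/-- the up-set of an element with two elements on the level `j`, one on the levels next to it -/
theorem bottom_up (hgr : GradedBelow Q) {v : Q} {j : ℕ} (hj1 : 1 ≤ j) (hj : j + 1 ≤ lev v)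
    (h2 : nab j v = 2) (hm : nab (j - 1) v = 1) (hp : nab (j + 1) v = 1) {U : Finset Q}
    (hU : ∀ x, x ∈ U ↔ v ≤ x) : ∀ n < 2, (1 + X : ℤ[X]) ^ 2 ∣ Z {x // x ∈ U} j n := by
  classical
  have hUp : ∀ x y : Q, x ≤ y → x ∈ U → y ∈ U := fun x y hxy hx =>
    (hU y).mpr (((hU x).mp hx).trans hxy)
  have hlU : ∀ x : {x // x ∈ U}, lev x = lev (x : Q) := lev_subtype (p := fun x => x ∈ U) hUp
  have hcard : ∀ l, (lv {x // x ∈ U} l).card = nab l v := by
    intro l
    unfold nab
    rw [← Finset.card_map (Function.Embedding.subtype (fun x => x ∈ U))]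
    congr 1
    ext x
    rw [mem_map, mem_filter, mem_lv]
    constructor
    · rintro ⟨y, hy, rfl⟩
      rw [mem_lv, hlU] at hy
      exact ⟨hy, (hU _).mp y.2⟩
    · rintro ⟨h3, h4⟩
      refine ⟨⟨x, (hU x).mpr h4⟩, ?_, rfl⟩
      rw [mem_lv, hlU]
      exact h3
  refine bottom_dia (gradedBelow_sub hgr hUp) (v := ⟨v, (hU v).mpr le_rfl⟩)
    (fun x => (hU _).mp x.2) hj1 ?_ ?_ ?_ ?_
  · rw [hlU]
    exact hj
  · rw [hcard, h2]
  · rw [hcard, hm]
  · rw [hcard, hp]

end bottom

end Pool.Agent.GaussPoset.W7
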