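import Pool.Agent.W_448w7_h83.CyA
import Pool.Agent.W_448w7_h22.SpB

/-!
Level 14, window 7 (MP_448cb3_co, S7, `j = 14`): a join of the anchor with a component of order one whose
up-set is a chain with a double cell on the level 9 (`Sp.y_dvd`).
-/

namespace Pool.Agent.GaussPoset.W7

set_option linter.unusedSectionVars false

open Polynomial Finset Fi Cl Dd Wd Win

universe u

variable {P : Type u} [Fintype P] [PartialOrder P] [DecidableEq P]

/-- the second component -/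
abbrev F2 (R : Finset P) (t s : Tops P) : Type u := {x : FR R topOf t // topOf (x.1.1 : P) = s}

/-- the rest -/
abbrev F3 (R : Finset P) (t s : Tops P) : Type u := {x : FR R topOf t // ¬ topOf (x.1.1 : P) = s}

section gen

variable {i n1 : ℕ} {R : Finset P} {θ : P → ℕ} {t : Tops P} {c : P} {D : Finset P}

lemma Sp.up2 (S : Sp i n1 R θ t c D) (s : Tops P) : ∀ x y : FR R topOf t, x ≤ y →
    topOf (x.1.1 : P) = s → topOf (y.1.1 : P) = s :=
  fun x _ hxy hx => (S.hcp _ _ hxy x.1.2).symm.trans hx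

lemma Sp.up3 (S : Sp i n1 R θ t c D) (s : Tops P) : ∀ x y : FR R topOf t, x ≤ y →
    ¬ topOf (x.1.1 : P) = s → ¬ topOf (y.1.1 : P) = s :=
  fun x _ hxy hx hy => hx ((S.hcp _ _ hxy x.1.2).trans hy)

lemma Sp.lev2 (S : Sp i n1 R θ t c D) {s : Tops P} (x : F2 R t s) :
    lev x = lev (x.1.1.1 : P) := by
  rw [lev_subtype (S.up2 s), S.frz.levR]

lemma Sp.nab2 (S : Sp i n1 R θ t c D) {s : Tops P} (x : F2 R t s) (l : ℕ) :
    nab l x = nab l (x.1.1.1 : P) := by
  rw [nab_sub (S.up2 s), S.frz.nabR]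

lemma Sp.ct2 (S : Sp i n1 R θ t c D) {s : Tops P} (x : F2 R t s) (i' k' : ℕ) :
    ct i' k' x = ct i' k' (x.1.1.1 : P) := by
  rw [ct_sub (S.up2 s), S.frz.ctR]

lemma Sp.gr2 (S : Sp i n1 R θ t c D) (s : Tops P) : GradedBelow (F2 R t s) :=
  gbel_sub (S.up2 s) (gbel_sub (S.frz.upR t) (gbel_sub S.frz.up S.gr))

/-- the product formula of the rest -/
lemma Sp.prod_R (S : Sp i n1 R θ t c D) (s : Tops P) (β : P → ℕ) (n : ℕ) :
    ZB (P := FR R topOf t) i ∅ 0 (fun x => β x.1.1) n = ∑ ab ∈ antidiagonal n,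
      ZB (P := F2 R t s) i ∅ 0 (fun x => β x.1.1.1) ab.1 *
      ZB (P := F3 R t s) i ∅ 0 (fun x => β x.1.1.1) ab.2 :=
  ZB_prod (fun x : FR R topOf t => topOf (x.1.1 : P) = s)
    (fun x y hxy => by rw [S.hcp _ _ hxy x.1.2]) i (fun x : FR R topOf t => β x.1.1) n

/-- the number of elements of the level `i` of the second component -/
lemma Sp.lv_2 (S : Sp i n1 R θ t c D) {s : Tops P} (hst : s ≠ t) :
    (lv (F2 R t s) i).card = (univ.filter (fun x : P => lev x = i ∧ topOf x = s)).card := by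
  classical
  unfold lv
  have h3 : (univ.filter (fun x : F2 R t s => lev x = i)) =
      (univ.filter (fun x : F2 R t s => lev (x.1.1.1 : P) = i)) :=
    Finset.filter_congr fun x _ => by rw [S.lev2]
  rw [h3, card_sub' (p := fun x : FR R topOf t => topOf (x.1.1 : P) = s)
      (fun x : FR R topOf t => lev (x.1.1 : P) = i),
    card_sub' (p := fun x : FO R => ¬ topOf (x : P) = t)
      (fun x : FO R => topOf (x : P) = s ∧ lev (x : P) = i),
    card_sub' (p := fun x : P => x ∉ R)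
      (fun x : P => ¬ topOf x = t ∧ topOf x = s ∧ lev x = i)]
  congr 1
  refine Finset.filter_congr fun x _ => ?_
  constructor
  · rintro ⟨-, -, h4, h5⟩
    exact ⟨h5, h4⟩
  · rintro ⟨h4, h5⟩
    exact ⟨fun h => by have := S.lev_R x h; omega, fun h => hst (h5 ▸ h), h5, h4⟩

/-- the order of the third factor -/
theorem Sp.dvd_3 (S : Sp i n1 R θ t c D) {v : P} (vR : v ∉ R) (vt : topOf v ≠ t)
    (hiv : i ≤ lev v) (hL : (univ.filter (fun x : P => lev x = i ∧ topOf x = topOf v)).card = 1)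
    (β : P → ℕ) (hβ : ∀ x, x ∉ R → topOf x ≠ t → topOf x ≠ topOf v → β x ≤ θ x) {n : ℕ}
    (hn : n < n1) : (1 + X : ℤ[X]) ^ ((lv P i).card - 3) ∣
      ZB (P := F3 R t (topOf v)) i ∅ 0 (fun x => β x.1.1.1) n := by
  classical
  have h2 := S.lv_2 (s := topOf v) vt
  rw [hL] at h2
  have hR := S.lv_R
  have h1R : 1 ≤ (lv (FR R topOf t) i).card := by
    rw [← h2]
    refine Finset.card_le_card_of_injOn (fun x => x.1) ?_ Subtype.val_injective.injOn
    intro x hx
    rw [Finset.mem_coe, mem_lv] at hx ⊢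
    rw [← hx]
    exact (lev_subtype (S.up2 (topOf v)) x).symm
  let β' : P → ℕ := fun x => if topOf x = topOf v then 0 else β x
  have e1 : (fun x : F2 R t (topOf v) => β' x.1.1.1) = 0 := by
    funext x
    exact if_pos x.2
  have e2 : (fun x : F3 R t (topOf v) => β' x.1.1.1) =
      (fun x : F3 R t (topOf v) => β x.1.1.1) := by
    funext x
    exact if_neg x.2
  refine dvd_of_prod (A := fun a => Z (F2 R t (topOf v)) i a)
    (B := fun a => ZB (P := F3 R t (topOf v)) i ∅ 0 (fun x => β x.1.1.1) a) (α := 1)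
    (β := (lv P i).card - 3) (N := n1) (u := below (F2 R t (topOf v)) i) ?_ ?_ ?_ n hn
  · rw [Z_zero, h2]
  · intro a
    refine dvd_Z_of_dvd_W ?_ a
    rw [pow_one]
    refine dvd_W_one ⟨⟨⟨⟨v, vR⟩, vt⟩, rfl⟩, ?_⟩
    rw [S.lev2]
    exact hiv
  · intro n hn
    have h3 := S.dvd_R β' (fun x hx ht => by
      show (if topOf x = topOf v then 0 else β x) ≤ _
      split_ifs with h
      · exact Nat.zero_le _
      · exact hβ x hx ht h) hn
    rw [S.prod_R (topOf v), e1, e2,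
      show (lv P i).card - 2 = 1 + ((lv P i).card - 3) by omega] at h3
    convert h3 using 2
    rename_i ab hab
    rw [Z_eq_ZB]

end gen

section seven

variable {R : Finset P} {θ : P → ℕ} {t : Tops P} {c : P} {D : Finset P}

/-- the cost of a chain with a double cell -/
lemma ct_dia {v : P} (hlv : lev v = 15) (h1 : ∀ l, l ≤ 15 → l ≠ 9 → nab l v = 1)
    (h2 : nab 9 v = 2) : ct 7 2 v = 17 := by
  unfold ct
  rw [cst_eq, hlv]
  simp only [Finset.sum_range_succ, Finset.sum_range_zero]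
  rw [h1 0 (by norm_num) (by norm_num), h1 1 (by norm_num) (by norm_num),
    h1 2 (by norm_num) (by norm_num), h1 3 (by norm_num) (by norm_num),
    h1 4 (by norm_num) (by norm_num), h1 5 (by norm_num) (by norm_num),
    h1 6 (by norm_num) (by norm_num), h1 7 (by norm_num) (by norm_num),
    h1 8 (by norm_num) (by norm_num), h2, h1 10 (by norm_num) (by norm_num),
    h1 11 (by norm_num) (by norm_num), h1 12 (by norm_num) (by norm_num),
    h1 13 (by norm_num) (by norm_num), h1 14 (by norm_num) (by norm_num),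
    h1 15 (by norm_num) (by norm_num)]
  norm_num

/-- the second component at the energies below 19 -/
theorem Sp.two_19 (S : Sp 7 51 R θ t c D) {v : P} (vR : v ∉ R) (vt : topOf v ≠ t)
    (hlv : lev v = 15) (h1 : ∀ l, l ≤ 15 → l ≠ 9 → nab l v = 1) (h2 : nab 9 v = 2)
    (hout : ∀ x, x ∉ R → topOf x = topOf v → ¬ v ≤ x → 9 ≤ lev x) {β : P → ℕ}
    (hv : β v = 2) (hβ : ∀ x, x ∉ R → topOf x = topOf v → β x ≤ 2) {b : ℕ} (hb : b < 19) :
    (1 + X : ℤ[X]) ^ 2 ∣ ZB (P := F2 R t (topOf v)) 7 ∅ 0 (fun x => β x.1.1.1) b := by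
  classical
  let v' : F2 R t (topOf v) := ⟨⟨⟨v, vR⟩, vt⟩, rfl⟩
  refine anc_dvd (k := 2) (p := 2) (v := v') le_rfl (fun x => hβ _ x.1.1.2 x.2) hv ?_ ?_ ?_
  · intro x hx
    rw [S.lev2]
    exact hout _ x.1.1.2 x.2 (fun h => hx h)
  · intro U hU n hn
    refine bottom_up (S.gr2 _) (v := v') (j := 9) (by norm_num) ?_ ?_ ?_ ?_ hU n hn
    · rw [S.lev2]
      show 9 + 1 ≤ lev v
      omega
    · rw [S.nab2]
      exact h2
    · rw [S.nab2]
      exact h1 8 (by norm_num) (by norm_num)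
    · rw [S.nab2]
      exact h1 10 (by norm_num) (by norm_num)
  · rw [S.ct2]
    show b < ct 7 2 v + 2
    rw [ct_dia hlv h1 h2]
    omega

/-- the three factors -/
theorem Sp.main_cy (S : Sp 7 51 R θ t c D) {v : P} (vR : v ∉ R) (vt : topOf v ≠ t)
    (hlv : lev v = 15) (h1 : ∀ l, l ≤ 15 → l ≠ 9 → nab l v = 1) (h2 : nab 9 v = 2)
    (hL : (univ.filter (fun x : P => lev x = 7 ∧ topOf x = topOf v)).card = 1)
    (hout : ∀ x, x ∉ R → topOf x = topOf v → ¬ v ≤ x → 9 ≤ lev x) {β : P → ℕ}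
    (hc : β c = 2) (hv : β v = 2) (hβT : ∀ x, x ∉ R → topOf x = t → β x ≤ 2)
    (hβ2 : ∀ x, x ∉ R → topOf x = topOf v → β x ≤ 2)
    (hβ3 : ∀ x, x ∉ R → topOf x ≠ t → topOf x ≠ topOf v → β x ≤ θ x) {n : ℕ} (hn : n ≤ 48) :
    (1 + X : ℤ[X]) ^ (lv P 7).card ∣ ZB 7 R 0 β n := by
  classical
  have hR := S.lv_R
  have h2' := S.lv_2 (s := topOf v) vt
  rw [hL] at h2'
  have h1R : 1 ≤ (lv (FR R topOf t) 7).card := by
    rw [← h2']
    refine Finset.card_le_card_of_injOn (fun x => x.1) ?_ Subtype.val_injective.injOn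
    intro x hx
    rw [Finset.mem_coe, mem_lv] at hx ⊢
    rw [← hx]
    exact (lev_subtype (S.up2 (topOf v)) x).symm
  have hlc := S.clev
  let v' : F2 R t (topOf v) := ⟨⟨⟨v, vR⟩, vt⟩, rfl⟩
  have hT1 : ∀ a, (1 + X : ℤ[X]) ∣ ZB (P := FT R topOf t) 7 ∅ 0 (fun x => β x.1.1) a := by
    intro a
    refine anchor_one (k := 2) (v := S.cT) (fun x => hβT _ x.1.2 x.2) hc ?_ a
    rw [S.lev_cT]
    norm_num
  have h21 : ∀ a, (1 + X : ℤ[X]) ∣
      ZB (P := F2 R t (topOf v)) 7 ∅ 0 (fun x => β x.1.1.1) a := by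
    intro a
    refine anchor_one (k := 2) (v := v') (fun x => hβ2 _ x.1.1.2 x.2) hv ?_ a
    rw [S.lev2]
    show 7 + 2 ≤ lev v
    omega
  rw [S.frz.prod S.lev_R t]
  refine Finset.dvd_sum fun ab hab => ?_
  rw [HasAntidiagonal.mem_antidiagonal] at hab
  rw [S.prod_R (topOf v), Finset.mul_sum]
  refine Finset.dvd_sum fun bc hbc => ?_
  rw [HasAntidiagonal.mem_antidiagonal] at hbc
  have h3 := S.dvd_3 vR vt (by omega) hL β hβ3 (n := bc.2) (by omega)
  rw [← mul_assoc]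
  obtain ⟨m, hm⟩ : ∃ m, (lv P 7).card = 3 + m := ⟨(lv P 7).card - 3, by omega⟩
  rw [hm, show 3 + m - 3 = m by omega] at h3
  rw [hm, pow_add]
  refine mul_dvd_mul ?_ h3
  rcases Nat.lt_or_ge ab.1 30 with h4 | h4
  · rw [show (3 : ℕ) = 2 + 1 from rfl, pow_add, pow_one]
    exact mul_dvd_mul (S.T_dvd hc hβT h4) (h21 _)
  · rw [show (3 : ℕ) = 1 + 2 from rfl, pow_add, pow_one]
    exact mul_dvd_mul (hT1 _) (S.two_19 vR vt hlv h1 h2 hout hv hβ2 (by omega))

/-- **(CY)** -/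
theorem Sp.y_dvd (S : Sp 7 51 R θ t c D) {z v : P} (hz : z ∈ bdR R) (hlz : lev z = 16)
    (zc : z ⋖ c) (zv : z ⋖ v) (vR : v ∉ R) (vt : topOf v ≠ t) (hlv : lev v = 15)
    (h1 : ∀ l, l ≤ 15 → l ≠ 9 → nab l v = 1) (h2 : nab 9 v = 2)
    (hL : (univ.filter (fun x : P => lev x = 7 ∧ topOf x = topOf v)).card = 1)
    (hout : ∀ x, x ∉ R → topOf x = topOf v → ¬ v ≤ x → 9 ≤ lev x)
    (h3 : ∀ y ∈ R, ∀ x, x ∉ R → topOf x = topOf v → y ⋖ x →
      50 < ∑ w, max (ez 7 (fun _ => 2) z w) (ez 7 (fun _ => 3) y w))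
    {n : ℕ} (hn : n ≤ 50) (g : P → ℕ) (hg0 : ∀ x, x ∉ R → g x = 0) (hgz : 2 ≤ g z)
    (hg1 : ∀ y ∈ R, ∀ x, x ∉ R → y ⋖ x → topOf x = t → g y ≤ 2)
    (hg2 : ∀ y ∈ R, ∀ x, x ∉ R → y ⋖ x → topOf x ≠ t → g y ≤ θ x) :
    (1 + X) ^ (lv P 7).card ∣ ZB 7 R g 0 n := by
  classical
  have hzR : z ∈ R := (mem_filter.mp hz).1
  by_cases hex : ∃ e F, Cst 7 R g 0 e F ∧ ∑ x, e x = n
  · obtain ⟨e, F, hC, hs⟩ := hex
    have hCs := hC
    obtain ⟨hV, hRe, -⟩ := hC
    have G : ∀ y ∈ R, ∀ x, x ∉ R → y ⋖ x → topOf x = topOf v → g y ≤ 2 := by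
      intro y hy x hx hyx hxt
      by_contra hcon
      have hly := S.lR y hy
      have h4 := h3 y hy x hx hxt hyx
      have h5 := ez_le (h := fun _ => 2) (z := z) hV (by omega) (Or.inr (by
        show 2 ≤ e z
        rw [(hRe z hzR).2]
        exact hgz))
      have h6 := ez_le (h := fun _ => 3) (z := y) hV (by omega) (Or.inr (by
        show 3 ≤ e y
        rw [(hRe y hy).2]
        omega))
      have h7 : ∑ w, max (ez 7 (fun _ => 2) z w) (ez 7 (fun _ => 3) y w) ≤ ∑ x, e x :=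
        Finset.sum_le_sum fun w _ => max_le (h5 w) (h6 w)
      omega
    by_cases hc : ∀ x ∈ R, ∀ y ∈ R, x ≤ y → g x ≤ g y
    · have hsum : g z ≤ ∑ x, g x := Finset.single_le_sum (fun _ _ => Nat.zero_le _) (mem_univ z)
      have hle : ∑ x, g x ≤ n := by
        rw [← hs]
        refine Finset.sum_le_sum fun x _ => ?_
        by_cases hx : x ∈ R
        · exact (hCs.2.1 x hx).2.ge
        · rw [hg0 x hx]
          exact Nat.zero_le _
      obtain ⟨n', hn'⟩ : ∃ n', n = n' + ∑ x, g x := ⟨n - ∑ x, g x, by omega⟩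
      rw [hn', ZB_shift 0 S.low S.lev_R hg0 hc]
      refine S.main_cy vR vt hlv h1 h2 hL hout ?_ ?_ ?_ ?_ ?_ (by omega)
      · exact le_antisymm (bg_le (Nat.zero_le _) fun y hy hyc => hg1 y hy c S.cR hyc S.cpc)
          (hgz.trans (le_bg' 0 hzR zc))
      · exact le_antisymm (bg_le (Nat.zero_le _) fun y hy hyv => G y hy v vR hyv rfl)
          (hgz.trans (le_bg' 0 hzR zv))
      · exact fun x hx ht => bg_le (Nat.zero_le _) fun y hy hyx => hg1 y hy x hx hyx ht
      · exact fun x hx ht => bg_le (Nat.zero_le _) fun y hy hyx => G y hy x hx hyx ht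
      · exact fun x hx ht _ => bg_le (Nat.zero_le _) fun y hy hyx => hg2 y hy x hx hyx ht
    · rw [ZB_zero_of_not_compat 0 S.lev_R hc]
      exact dvd_zero _
  · have : ZB 7 R g 0 n = 0 := by
      unfold ZB
      refine Finset.sum_eq_zero fun F _ => ?_
      rw [Finset.filter_eq_empty_iff.mpr, Finset.sum_empty]
      intro e he hC
      rw [mem_piAntidiag] at he
      exact hex ⟨e, F, hC, he.1⟩
    rw [this]
    exact dvd_zero _

end seven

end Pool.Agent.GaussPoset.W7
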