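import Pool.Agent.W_448w7_h83.CyB
import Pool.Agent.W_448w7_h76.VaA

/-!
Level 14, window 7 (MP_448cb3_co, S7, `j = 14`): the elements of level 16 below an anchor and below an
element with a double cell on level 9 (the field `nine` of `Lad`).
-/

namespace Pool.Agent.GaussPoset.W7

set_option linter.unusedSectionVars false

open Polynomial Finset Fi Cl Dd Wd

universe u

variable {P : Type u} [Fintype P] [PartialOrder P] [DecidableEq P] {r n0 : ℕ}
  {N : Tops P → Finset P} {b : Tops P → ℕ} {θ : Tops P → P → ℕ}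

/-- one more label costs at least the number of the levels -/
lemma ct_lt_succ {x : P} {a : ℕ} (ha : 9 + a = lev x) : ct 7 2 x + a ≤ ct 7 3 x := by
  unfold ct
  rw [cst_eq, cst_eq]
  have h1 : ∀ t ∈ range (lev x + 1), min 2 (t - 7) * nab t x + (if 9 < t then 1 else 0) ≤
      min 3 (t - 7) * nab t x := by
    intro t ht
    rw [mem_range] at ht
    have h2 : 1 ≤ nab t x := one_le_nab (by omega)
    split_ifs with h3
    · rw [show min 3 (t - 7) = min 2 (t - 7) + 1 by omega, add_mul, one_mul]
      omega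
    · rw [Nat.add_zero]
      exact Nat.mul_le_mul_right _ (min_le_min (by norm_num) le_rfl)
  refine le_trans ?_ (Finset.sum_le_sum h1)
  rw [Finset.sum_add_distrib]
  refine Nat.add_le_add_left ?_ _
  rw [← Finset.sum_filter, Finset.sum_const, smul_eq_mul, mul_one]
  have h4 : Finset.Ico 10 (lev x + 1) ⊆ (range (lev x + 1)).filter (fun t => 9 < t) := by
    intro t ht
    rw [Finset.mem_Ico] at ht
    rw [mem_filter, mem_range]
    omega
  have h5 := Finset.card_le_card h4
  rw [Nat.card_Ico] at h5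
  omega

/-- **The field `nine` of the ladder.** -/
theorem WL.nine (W : WL r 51 N b θ) (J : JH P)
    (hsp : ∀ c : P, Ank 51 N θ c →
      Sp 7 51 (r2 (2 * 7) N) (th2 N θ) (topOf c) c (Dn 51 N c)) :
    ∀ c z v : P, Ank 51 N θ c → z ∈ bdR (r2 (2 * 7) N) → lev z = 16 → z ⋖ c → z ⋖ v →
    v ∉ r2 (2 * 7) N → topOf v ≠ topOf c → nab 9 v = 2 →
    (∀ l, l ≤ 14 → l ≠ 9 → nab l v = 1) → cn 7 (topOf v : P) = 1 →
    (∀ x, x ≤ (topOf v : P) → lev x ≤ 14 → ¬ v ≤ x → 9 ≤ lev x) →
    ∀ n, n ≤ 50 → ∀ g : P → ℕ, (∀ x, x ∉ r2 (2 * 7) N → g x = 0) → 2 ≤ g z →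
      (∀ y ∈ r2 (2 * 7) N, ∀ x, x ∉ r2 (2 * 7) N → y ⋖ x → topOf x = topOf c → g y ≤ 2) →
      (∀ y ∈ r2 (2 * 7) N, ∀ x, x ∉ r2 (2 * 7) N → y ⋖ x → topOf x ≠ topOf c →
        g y ≤ th2 N θ x) →
      (1 + X : ℤ[X]) ^ (lv P 7).card ∣ ZB 7 (r2 (2 * 7) N) g 0 n := by
  classical
  intro c z v hc hz hlz zc zv vR vt h9 h1 h7 hout n hn g hg0 hgz hg1 hg2
  have H := W.gt.H
  have S := hsp c hc
  have hlv : lev v = 15 := by
    have := (H.covBy_iff.mp zv).2
    omega
  have h1' : ∀ l, l ≤ 15 → l ≠ 9 → nab l v = 1 := by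
    intro l hl hl9
    by_cases h : l = 15
    · rw [h, ← hlv]
      exact nab_self
    · exact h1 l (by omega) hl9
  have hcv : ∀ x, c ≤ x → v ≤ x → False := by
    intro x hcx hvx
    exact vt ((S.hcp _ _ hvx vR).trans (S.hcp _ _ hcx S.cR).symm)
  have hz47 : 47 ≤ ct 7 2 z := by
    have h2 := two_anchor (m := 7) (f := c) (v := v)
      (e := fun x => if z ≤ x then min 2 (lev x - 7) else 0) (c := fun _ => 2) (k1 := 2) (k2 := 2)
      (fun x hx => by
        show _ ≤ (if z ≤ x then min 2 (lev x - 7) else 0)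
        rw [if_pos (zc.1.le.trans hx)])
      (fun x hx => by
        show _ ≤ (if z ≤ x then min 2 (lev x - 7) else 0)
        rw [if_pos (zv.1.le.trans hx)]) hcv {z} (fun w hw => by
        rw [mem_singleton] at hw
        subst hw
        exact ⟨not_le_of_gt zc.1, not_le_of_gt zv.1⟩) (fun w hw => by
        rw [mem_singleton] at hw
        subst hw
        show 2 ≤ (if w ≤ w then min 2 (lev w - 7) else 0)
        rw [if_pos le_rfl]
        omega)
    rw [S.cct, ct_dia hlv h1' h9, Finset.sum_singleton] at h2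
    rw [ct_eq_sum]
    refine le_trans (by norm_num) (h2.trans (le_of_eq (Finset.sum_congr rfl fun x _ => ?_)))
    split_ifs <;> rfl
  refine S.y_dvd hz hlz zc zv vR vt hlv h1' h9 ?_ ?_ ?_ hn g hg0 hgz hg1 hg2
  · unfold cn lv at h7
    rw [Finset.filter_filter] at h7
    rw [← h7]
    congr 1
    refine Finset.filter_congr fun x _ => ?_
    constructor
    · rintro ⟨h3, h4⟩
      exact ⟨h3, by rw [← h4]; exact le_topOf x⟩
    · rintro ⟨h3, h4⟩
      refine ⟨h3, ?_⟩
      have h5 := W.natSys.cp x (topOf v : P) h4 (W.low (by omega))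
      rw [topOf_top'] at h5
      exact h5
  · intro x hx hxt hvx
    by_cases hl : lev x ≤ 14
    · exact hout x (by rw [← hxt]; exact le_topOf x) hl hvx
    · omega
  · intro y hy x hx hxt hyx
    have h15 := W.no_r14 J hy hyx (by rw [hxt]; exact h7) hx
    have hly := (H.covBy_iff.mp hyx).2
    have hx3 := ct_lt_succ (x := x) (a := lev x - 9) (by omega)
    by_cases hyz : z = y
    · subst hyz
      have h2 := uni_self (i := 7) (h := fun _ => 2) (z := z) rfl
      rw [← h2]
      have h4 := two_anchor (m := 7) (f := c) (v := v)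
        (e := fun x => if z ≤ x then min 3 (lev x - 7) else 0) (c := fun _ => 3) (k1 := 3)
        (k2 := 3)
        (fun x hx => by
          show _ ≤ (if z ≤ x then min 3 (lev x - 7) else 0)
          rw [if_pos (zc.1.le.trans hx)])
        (fun x hx => by
          show _ ≤ (if z ≤ x then min 3 (lev x - 7) else 0)
          rw [if_pos (zv.1.le.trans hx)]) hcv {z} (fun w hw => by
          rw [mem_singleton] at hw
          subst hw
          exact ⟨not_le_of_gt zc.1, not_le_of_gt zv.1⟩) (fun w hw => by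
          rw [mem_singleton] at hw
          subst hw
          show 3 ≤ (if w ≤ w then min 3 (lev w - 7) else 0)
          rw [if_pos le_rfl]
          omega)
      have h5 := ct_lt_succ (x := c) (a := 6) (by rw [S.clev])
      have h6 := ct_lt_succ (x := v) (a := 6) (by omega)
      rw [Finset.sum_singleton] at h4
      have h7 := S.cct
      have h8 := ct_dia hlv h1' h9
      have h10 : ∑ x, (if z ≤ x then min 3 (lev x - 7) else 0) ≤ ct 7 3 z := by
        rw [ct_eq_sum]
      have h11 := h4.trans h10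
      omega
    · have h3 : ¬ z ≤ y := by
        intro h
        have := lev_strictAnti (lt_of_le_of_ne h hyz)
        omega
      have h4 := uni_cost (i := 7) (h := fun _ => 2) (z := z) rfl hyx.lt h3
      rw [Nat.min_eq_left (show 3 ≤ lev y - 7 by omega)] at h4
      omega

end Pool.Agent.GaussPoset.W7
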